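import Pool.Agent.Y871.LW.StmD
import Pool.Agent.TH892.SW.S4

/-!
# Project LW, part QC2: exact constants for the quadratics with `a`, `b` fixed, almost all `c < 0`
-/

set_option autoImplicit false

open Finset Polynomial Filter Topology

namespace Pool.Agent.Y252.LW

open Pool.Agent.W468.ConjF (Admissible CF)
open Pool.Agent.TH892.SW (HP js_le hK_most)

/-- the first product -/
noncomputable def p1 (a b : ℤ) : ℝ :=
  ∏ p ∈ (range (a.natAbs + 1)).filter (fun p : ℕ => p.Prime ∧ 3 ≤ p ∧ (p : ℤ) ∣ a ∧ (p : ℤ) ∣ b),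
    (p : ℝ) / (p - 1)

/-- the second product -/
noncomputable def p2 (a D : ℤ) : ℝ :=
  ∏ p ∈ (range (a.natAbs + 1)).filter (fun p : ℕ => p.Prime ∧ 3 ≤ p ∧ (p : ℤ) ∣ a),
    (1 - (jacobiSym D p : ℝ) / (p - 1))

/-- the quotient -/
noncomputable def kap (a b c : ℤ) : ℝ :=
  (if (2 : ℤ) ∣ a + b then 1 else 1 / 2) * p1 a b / p2 a (b ^ 2 - 4 * a * c)

lemma p1_pos (a b : ℤ) : 0 < p1 a b := by
  unfold p1
  refine prod_pos fun p hp => ?_
  rw [mem_filter] at hp
  have h3 : (3 : ℝ) ≤ p := by exact_mod_cast hp.2.2.1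
  exact div_pos (by linarith) (by linarith)

lemma p2_pos (a D : ℤ) : 0 < p2 a D := by
  unfold p2
  refine prod_pos fun p hp => ?_
  rw [mem_filter] at hp
  have h3 : (3 : ℝ) ≤ p := by exact_mod_cast hp.2.2.1
  have h4 := (abs_le.1 (js_le D p)).2
  have h5 : (jacobiSym D p : ℝ) / ((p : ℝ) - 1) ≤ 1 / 2 := by
    rw [div_le_iff₀ (by linarith)]
    linarith
  linarith

lemma kap_pos (a b c : ℤ) : 0 < kap a b c := by
  unfold kap
  refine div_pos (mul_pos ?_ (p1_pos a b)) (p2_pos _ _)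
  split_ifs <;> norm_num

/-- a prime factor of `a` is at most `|a|` -/
lemma dvd_lt (a : ℤ) (ha : 0 < a) (p : ℕ) (h : (p : ℤ) ∣ a) : p < a.natAbs + 1 := by
  have h1 : p ∣ a.natAbs := Int.natCast_dvd.1 h
  have h2 : 0 < a.natAbs := Int.natAbs_pos.2 ha.ne'
  have := Nat.le_of_dvd h2 h1
  omega

/-- the constant of Conjecture F is a multiple of the product over the odd primes -/
lemma CF_eq (a b c : ℤ) (ha : 0 < a) (y : ℕ) (hy : a.natAbs ≤ y) :
    CF a b c y = kap a b c * HP (b ^ 2 - 4 * a * c) y := by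
  have e1 : ∏ p ∈ (range (y + 1)).filter
      (fun p : ℕ => p.Prime ∧ 3 ≤ p ∧ (p : ℤ) ∣ a ∧ (p : ℤ) ∣ b), (p : ℝ) / (p - 1) = p1 a b := by
    unfold p1
    refine prod_congr ?_ fun _ _ => rfl
    ext p
    rw [mem_filter, mem_filter, mem_range, mem_range]
    constructor
    · rintro ⟨_, h⟩
      exact ⟨dvd_lt a ha p h.2.2.1, h⟩
    · rintro ⟨h1, h⟩
      exact ⟨by omega, h⟩
  have e2 : ∏ p ∈ (range (y + 1)).filter (fun p : ℕ => p.Prime ∧ 3 ≤ p ∧ (p : ℤ) ∣ a),
      (1 - (jacobiSym (b ^ 2 - 4 * a * c) p : ℝ) / ((p : ℝ) - 1)) =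
      p2 a (b ^ 2 - 4 * a * c) := by
    unfold p2
    refine prod_congr ?_ fun _ _ => rfl
    ext p
    rw [mem_filter, mem_filter, mem_range, mem_range]
    constructor
    · rintro ⟨_, h⟩
      exact ⟨dvd_lt a ha p h.2.2, h⟩
    · rintro ⟨h1, h⟩
      exact ⟨by omega, h⟩
  have e3 : HP (b ^ 2 - 4 * a * c) y = p2 a (b ^ 2 - 4 * a * c) *
      ∏ p ∈ (range (y + 1)).filter (fun p : ℕ => p.Prime ∧ 3 ≤ p ∧ ¬ (p : ℤ) ∣ a),
        (1 - (jacobiSym (b ^ 2 - 4 * a * c) p : ℝ) / ((p : ℝ) - 1)) := by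
    unfold HP
    rw [← e2, ← prod_union]
    · refine prod_congr ?_ fun _ _ => rfl
      ext p
      rw [mem_union, mem_filter, mem_filter, mem_filter]
      constructor
      · rintro ⟨h1, h2, h3⟩
        have := h2.two_le
        by_cases h : (p : ℤ) ∣ a
        · exact Or.inl ⟨h1, h2, by omega, h⟩
        · exact Or.inr ⟨h1, h2, by omega, h⟩
      · rintro (⟨h1, h2, h3, _⟩ | ⟨h1, h2, h3, _⟩)
        · exact ⟨h1, h2, by omega⟩
        · exact ⟨h1, h2, by omega⟩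
    · rw [disjoint_left]
      intro p hp hp'
      rw [mem_filter] at hp hp'
      exact hp'.2.2.2 hp.2.2.2
  have hp2 := p2_pos a (b ^ 2 - 4 * a * c)
  unfold CF kap
  rw [e1, e3]
  field_simp

lemma log_pow_ev (k : ℕ) (s : ℝ) (hs : 0 < s) : ∀ᶠ x : ℕ in atTop,
    Real.log x ^ k ≤ (x : ℝ) ^ s := by
  have h := (isLittleO_log_rpow_rpow_atTop (k : ℝ) hs).bound (show (0:ℝ) < 1 by norm_num)
  have h2 := tendsto_natCast_atTop_atTop (R := ℝ) |>.eventually h
  filter_upwards [h2, eventually_ge_atTop 1] with x hx hx1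
  have hx1' : (1 : ℝ) ≤ x := by exact_mod_cast hx1
  have hl : 0 ≤ Real.log x := Real.log_nonneg hx1'
  rw [Real.norm_eq_abs, Real.norm_eq_abs, abs_of_nonneg (Real.rpow_nonneg hl _),
    abs_of_nonneg (Real.rpow_nonneg (by linarith) _), one_mul, Real.rpow_natCast] at hx
  exact hx

lemma log_ge_ev (M : ℝ) : ∀ᶠ x : ℕ in atTop, M ≤ Real.log x :=
  (Real.tendsto_log_atTop.comp tendsto_natCast_atTop_atTop).eventually_ge_atTop M

theorem t_QC2 : Pool.Agent.Y871.LW.S_QC2 := by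
  classical
  intro a b ha η hη B
  obtain ⟨E1, hE1⟩ := hK_most 1 1
  obtain ⟨E, hE⟩ : ∃ E : ℕ, E = max E1 (B + 1) := ⟨_, rfl⟩
  obtain ⟨X0, hX0⟩ := hE1 E (by rw [hE]; exact le_max_left _ _)
  obtain ⟨A0, hA0⟩ : ∃ A0 : ℕ, A0 = 4 * a.natAbs + b.natAbs ^ 2 := ⟨_, rfl⟩
  have haN : 1 ≤ a.natAbs := Int.natAbs_pos.2 ha.ne'
  have hA01 : 1 ≤ A0 := by omega
  have hA0r : (1 : ℝ) ≤ A0 := by exact_mod_cast hA01
  -- large `X`
  have hev : ∀ᶠ X : ℕ in atTop, Real.log X ^ (3 * E) ≤ (X : ℝ) ^ (1 / 2 : ℝ) ∧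
      2 + a.natAbs + A0 / η + 1 / η ≤ Real.log X ∧ (A0 : ℝ) ^ 2 ≤ X ∧ X0 ≤ X := by
    filter_upwards [log_pow_ev (3 * E) (1 / 2) (by norm_num),
      log_ge_ev (2 + a.natAbs + A0 / η + 1 / η),
      (tendsto_natCast_atTop_atTop (R := ℝ)).eventually_ge_atTop ((A0 : ℝ) ^ 2),
      eventually_ge_atTop X0] with X h1 h2 h3 h4
    exact ⟨h1, h2, h3, h4⟩
  obtain ⟨X1, hX1⟩ := eventually_atTop.1 hev
  obtain ⟨N1, hN1⟩ := eventually_atTop.1 (log_ge_ev 2)
  refine ⟨max X1 (max N1 1), fun N hN => ?_⟩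
  have hNX1 : X1 ≤ N := (le_max_left _ _).trans hN
  have hNN1 : N1 ≤ N := ((le_max_left _ _).trans (le_max_right _ _)).trans hN
  have hN1' : 1 ≤ N := ((le_max_right _ _).trans (le_max_right _ _)).trans hN
  have hNr : (1 : ℝ) ≤ N := by exact_mod_cast hN1'
  obtain ⟨X, hX⟩ : ∃ X : ℕ, X = 4 * a.natAbs * N + b.natAbs ^ 2 := ⟨_, rfl⟩
  have hNX : N ≤ X := by
    rw [hX]
    nlinarith
  have hXA : X ≤ A0 * N := by
    rw [hX, hA0]
    nlinarith [Nat.zero_le (b.natAbs ^ 2)]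
  obtain ⟨g1, g2, g3, g4⟩ := hX1 X (hNX1.trans hNX)
  have hlogN : 2 ≤ Real.log N := hN1 N hNN1
  have hXr : (1 : ℝ) ≤ X := by exact_mod_cast hN1'.trans hNX
  have hXN : Real.log N ≤ Real.log X :=
    Real.log_le_log (by linarith) (by exact_mod_cast hNX)
  have hLX : 2 ≤ Real.log X := hlogN.trans hXN
  have hA0η : 0 ≤ (A0 : ℝ) / η := by positivity
  have h1η : 0 ≤ 1 / η := by positivity
  have haR : (0 : ℝ) ≤ a.natAbs := by positivity
  obtain ⟨Bx, hBx, hK⟩ := hX0 X g4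
  obtain ⟨z, hz⟩ : ∃ z : ℕ, z = ⌊Real.log X ^ E⌋₊ := ⟨_, rfl⟩
  rw [← hz] at hK
  have hEB : B + 1 ≤ E := by rw [hE]; exact le_max_right _ _
  have hzlo : Real.log X ^ E - 1 ≤ z := by
    have := Nat.lt_floor_add_one (Real.log X ^ E)
    rw [← hz] at this
    linarith
  have hzle : (z : ℝ) ≤ Real.log X ^ E := by
    rw [hz]
    exact Nat.floor_le (by positivity)
  have hza : a.natAbs ≤ z := by
    have h1 : Real.log X ≤ Real.log X ^ E := le_self_pow₀ (by linarith) (by omega)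
    have h2 : ((a.natAbs : ℕ) : ℝ) ≤ z := by linarith
    exact_mod_cast h2
  refine ⟨z, ?_, ?_, ?_⟩
  · have h1 : Real.log X ^ (B + 1) ≤ Real.log X ^ E := pow_le_pow_right₀ (by linarith) hEB
    have h2 : Real.log N ^ B ≤ Real.log X ^ B := pow_le_pow_left₀ (by linarith) hXN B
    have h3 : 1 ≤ Real.log X ^ B := one_le_pow₀ (by linarith)
    rw [pow_succ] at h1
    nlinarith
  · have h1 : (z : ℝ) ^ 3 ≤ (X : ℝ) ^ (1 / 2 : ℝ) := by
      refine le_trans ?_ g1
      rw [mul_comm 3 E, pow_mul]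
      exact pow_le_pow_left₀ (by positivity) hzle 3
    have h2 : (X : ℝ) ^ (1 / 2 : ℝ) * A0 ≤ X := by
      have h3 : (A0 : ℝ) ≤ (X : ℝ) ^ (1 / 2 : ℝ) := by
        have h4 := Real.rpow_le_rpow (by positivity) g3 (by norm_num : (0 : ℝ) ≤ 1 / 2)
        rw [← Real.rpow_natCast, ← Real.rpow_mul (by positivity)] at h4
        norm_num at h4
        norm_num
        exact h4
      have h5 : (X : ℝ) ^ (1 / 2 : ℝ) * (X : ℝ) ^ (1 / 2 : ℝ) = X := by
        rw [← Real.rpow_add (by linarith)]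
        norm_num
      calc (X : ℝ) ^ (1 / 2 : ℝ) * A0 ≤ (X : ℝ) ^ (1 / 2 : ℝ) * (X : ℝ) ^ (1 / 2 : ℝ) := by gcongr
        _ = X := h5
    have h6 : (X : ℝ) ≤ A0 * N := by exact_mod_cast hXA
    have h7 : (X : ℝ) ^ (1 / 2 : ℝ) ≤ N := by
      have h8 : (X : ℝ) ^ (1 / 2 : ℝ) * A0 ≤ N * A0 := by
        rw [mul_comm (N : ℝ)]
        exact h2.trans h6
      exact le_of_mul_le_mul_right h8 (by linarith)
    exact_mod_cast h1.trans h7
  · refine ⟨(Icc (-(N : ℤ)) (-1)).filter (fun c => (b ^ 2 - 4 * a * c).toNat ∈ Bx), ?_, ?_⟩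
    · have hcard : ((Icc (-(N : ℤ)) (-1)).filter
          (fun c => (b ^ 2 - 4 * a * c).toNat ∈ Bx)).card ≤ Bx.card := by
        refine card_le_card_of_injOn (fun c => (b ^ 2 - 4 * a * c).toNat)
          (fun c hc => (mem_filter.1 hc).2) ?_
        intro c hc c' hc' he
        rw [mem_coe, mem_filter, mem_Icc] at hc hc'
        have h1 : 0 ≤ b ^ 2 - 4 * a * c := by nlinarith [sq_nonneg b]
        have h2 : 0 ≤ b ^ 2 - 4 * a * c' := by nlinarith [sq_nonneg b]
        have h3 : (((b ^ 2 - 4 * a * c).toNat : ℕ) : ℤ) = ((b ^ 2 - 4 * a * c').toNat : ℕ) := by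
          have he' : (b ^ 2 - 4 * a * c).toNat = (b ^ 2 - 4 * a * c').toNat := he
          rw [he']
        rw [Int.toNat_of_nonneg h1, Int.toNat_of_nonneg h2] at h3
        have h4 : a * c = a * c' := by linarith
        exact mul_left_cancel₀ ha.ne' h4
      have h1 : (Bx.card : ℝ) ≤ X / Real.log X := by
        rw [pow_one] at hBx
        exact hBx
      have h2 : (X : ℝ) / Real.log X ≤ η * N := by
        rw [div_le_iff₀ (by linarith)]
        have h6 : (X : ℝ) ≤ A0 * N := by exact_mod_cast hXA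
        have h7 : (A0 : ℝ) ≤ η * Real.log X := by
          have h8 : (A0 : ℝ) / η ≤ Real.log X := by linarith
          rw [div_le_iff₀ hη] at h8
          linarith
        calc (X : ℝ) ≤ A0 * N := h6
          _ ≤ (η * Real.log X) * N := by gcongr
          _ = η * N * Real.log X := by ring
      refine le_trans ?_ (h1.trans h2)
      exact_mod_cast hcard
    · intro c hc1 hc2 hc3 hadm
      have hD0 : 0 < b ^ 2 - 4 * a * c := by nlinarith [sq_nonneg b]
      obtain ⟨K, hKd⟩ : ∃ K : ℕ, K = (b ^ 2 - 4 * a * c).toNat := ⟨_, rfl⟩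
      have hKD : (K : ℤ) = b ^ 2 - 4 * a * c := by
        rw [hKd]
        exact Int.toNat_of_nonneg hD0.le
      have hKX : K ≤ X := by
        have hz1 : (K : ℤ) ≤ X := by
          rw [hKD, hX]
          push_cast
          rw [sq_abs, abs_of_pos ha]
          have h9 : 0 ≤ a * ((N : ℤ) + c) := mul_nonneg ha.le (by linarith)
          linarith
        exact_mod_cast hz1
      have hK1 : 1 ≤ K := by
        have : (0 : ℤ) < K := by rw [hKD]; exact hD0
        omega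
      have hKB : K ∉ Bx := by
        intro h
        refine hc3 (mem_filter.2 ⟨mem_Icc.2 ⟨hc1, by omega⟩, ?_⟩)
        rw [← hKd]
        exact h
      have hsq : ¬ IsSquare (K : ℤ) := by
        rw [hKD]
        exact hadm.2.2.2
      obtain ⟨h, hh0, hlim, hab⟩ := hK K (mem_Icc.2 ⟨hK1, hKX⟩) hKB hsq
      have hk := kap_pos a b c
      refine ⟨kap a b c * h, mul_pos hk hh0, ?_, ?_⟩
      · refine (hlim.const_mul (kap a b c)).congr' ?_
        filter_upwards [eventually_ge_atTop a.natAbs] with y hy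
        rw [CF_eq a b c ha y hy, hKD]
      · rw [CF_eq a b c ha z hza, ← hKD, ← mul_sub, abs_mul, abs_of_pos hk]
        have h1 : 1 / Real.log X ≤ η := by
          have h2 : 1 / η ≤ Real.log X := by linarith
          rw [div_le_iff₀ hη] at h2
          rw [div_le_iff₀ (by linarith)]
          linarith
        rw [pow_one] at hab
        calc kap a b c * |HP K z - h| ≤ kap a b c * (1 / Real.log X * h) := by gcongr
          _ ≤ kap a b c * (η * h) := by gcongr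
          _ = η * (kap a b c * h) := by ring

end Pool.Agent.Y252.LW
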